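import Pool.Agent.THS.StmtsT

namespace Pool.Agent.THS.H53

open scoped BigOperators Topology

theorem geo_one (N : ℕ) (hN : 0 < N) (n : ℤ) :
    ∑ k : Fin N, Complex.exp (2 * Real.pi * Complex.I * ((n : ℂ) * ((k : ℕ) : ℂ) / (N : ℂ)))
      = if (N : ℤ) ∣ n then (N : ℂ) else 0 := by
  have hN0 : (N : ℂ) ≠ 0 := by exact_mod_cast hN.ne'
  set ζ : ℂ := Complex.exp (2 * Real.pi * Complex.I * ((n : ℂ) / (N : ℂ))) with hζ
  have h1 : ∀ k : ℕ, Complex.exp (2 * Real.pi * Complex.I * ((n : ℂ) * (k : ℂ) / (N : ℂ))) = ζ ^ k := by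
    intro k
    rw [hζ, ← Complex.exp_nat_mul]
    congr 1
    ring
  have h2 : ∑ k : Fin N, Complex.exp (2 * Real.pi * Complex.I * ((n : ℂ) * ((k : ℕ) : ℂ) / (N : ℂ)))
      = ∑ k ∈ Finset.range N, ζ ^ k := by
    rw [Finset.sum_range]
    exact Finset.sum_congr rfl (fun k _ => h1 k)
  rw [h2]
  have h3 : ζ ^ N = 1 := by
    rw [hζ, ← Complex.exp_nat_mul]
    rw [Complex.exp_eq_one_iff]
    refine ⟨n, ?_⟩
    field_simp
  by_cases hd : (N : ℤ) ∣ n
  · rw [if_pos hd]
    obtain ⟨m, hm⟩ := hd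
    have h4 : ζ = 1 := by
      rw [hζ, Complex.exp_eq_one_iff]
      refine ⟨m, ?_⟩
      rw [hm]
      push_cast
      field_simp
    rw [h4]
    simp
  · rw [if_neg hd]
    have h4 : ζ ≠ 1 := by
      intro h
      rw [hζ, Complex.exp_eq_one_iff] at h
      obtain ⟨m, hm⟩ := h
      apply hd
      refine ⟨m, ?_⟩
      have hpi : (2 * Real.pi * Complex.I : ℂ) ≠ 0 := Complex.two_pi_I_ne_zero
      have h5 : (n : ℂ) / (N : ℂ) = (m : ℂ) := by
        apply mul_left_cancel₀ hpi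
        rw [hm]
        ring
      have h6 : (n : ℂ) = (N : ℂ) * (m : ℂ) := by
        field_simp at h5
        rw [h5]
      exact_mod_cast h6
    have h5 := mul_neg_geom_sum ζ N
    rw [h3, sub_self] at h5
    rcases mul_eq_zero.mp h5 with h | h
    · exact absurd (sub_eq_zero.mp h).symm h4
    · exact h

theorem geo_g (g N : ℕ) (hN : 0 < N) (n : Fin g → ℤ) :
    ∑ k : Fin g → Fin N,
      Complex.exp (2 * Real.pi * Complex.I * ∑ i, (n i : ℂ) * ((((k i : ℕ) : ℝ) / (N : ℝ) : ℝ) : ℂ))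
      = if (∀ i, (N : ℤ) ∣ n i) then (N : ℂ) ^ g else 0 := by
  have h1 : ∀ k : Fin g → Fin N,
      Complex.exp (2 * Real.pi * Complex.I * ∑ i, (n i : ℂ) * ((((k i : ℕ) : ℝ) / (N : ℝ) : ℝ) : ℂ))
      = ∏ i, Complex.exp (2 * Real.pi * Complex.I * ((n i : ℂ) * ((k i : ℕ) : ℂ) / (N : ℂ))) := by
    intro k
    rw [← Complex.exp_sum, Finset.mul_sum]
    congr 1
    refine Finset.sum_congr rfl (fun i _ => ?_)
    push_cast
    ring
  rw [Finset.sum_congr rfl (fun k _ => h1 k)]
  have h2 := Finset.prod_univ_sum (fun _ : Fin g => (Finset.univ : Finset (Fin N)))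
    (fun i (j : Fin N) => Complex.exp (2 * Real.pi * Complex.I * ((n i : ℂ) * ((j : ℕ) : ℂ) / (N : ℂ))))
  rw [Fintype.piFinset_univ] at h2
  rw [← h2]
  rw [Finset.prod_congr rfl (fun i _ => geo_one N hN (n i))]
  by_cases hd : ∀ i, (N : ℤ) ∣ n i
  · rw [if_pos hd]
    rw [Finset.prod_congr rfl (fun i _ => if_pos (hd i))]
    simp
  · rw [if_neg hd]
    push Not at hd
    obtain ⟨i, hi⟩ := hd
    exact Finset.prod_eq_zero (Finset.mem_univ i) (if_neg hi)

theorem grd : GrdStatement := by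
  intro g c hc hc0
  by_contra hcon
  push Not at hcon
  have hsum : ∀ x : Fin g → ℝ, Summable (fun n : Fin g → ℤ =>
      c n * Complex.exp (2 * Real.pi * Complex.I * ∑ i, (n i : ℂ) * (x i : ℂ))) := by
    intro x
    refine Summable.of_norm ?_
    refine hc.congr (fun n => ?_)
    rw [norm_mul]
    have : ‖Complex.exp (2 * Real.pi * Complex.I * ∑ i, (n i : ℂ) * (x i : ℂ))‖ = 1 := by
      have h : (2 * Real.pi * Complex.I * ∑ i, (n i : ℂ) * (x i : ℂ) : ℂ)
          = ((2 * Real.pi * ∑ i, (n i : ℝ) * x i : ℝ) : ℂ) * Complex.I := by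
        push_cast
        ring
      rw [h, Complex.norm_exp_ofReal_mul_I]
    rw [this, mul_one]
  have key : ∀ N : ℕ, 0 < N →
      ∑' n : Fin g → ℤ, (if (∀ i, (N : ℤ) ∣ n i) then c n else 0) = 0 := by
    intro N hN
    have hN0 : ((N : ℂ) ^ g) ≠ 0 := pow_ne_zero _ (by exact_mod_cast hN.ne')
    have h1 : ∑ k : Fin g → Fin N, ∑' n : Fin g → ℤ,
        c n * Complex.exp (2 * Real.pi * Complex.I *
          ∑ i, (n i : ℂ) * ((((k i : ℕ) : ℝ) / (N : ℝ) : ℝ) : ℂ)) = 0 := by
      exact Finset.sum_eq_zero (fun k _ => hcon (fun i => ((k i : ℕ) : ℝ) / (N : ℝ)))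
    rw [← Summable.tsum_finsetSum (fun k _ => hsum (fun i => ((k i : ℕ) : ℝ) / (N : ℝ)))] at h1
    have h2 : ∀ n : Fin g → ℤ, ∑ k : Fin g → Fin N, c n * Complex.exp (2 * Real.pi * Complex.I *
          ∑ i, (n i : ℂ) * ((((k i : ℕ) : ℝ) / (N : ℝ) : ℝ) : ℂ))
        = (N : ℂ) ^ g * (if (∀ i, (N : ℤ) ∣ n i) then c n else 0) := by
      intro n
      rw [← Finset.mul_sum, geo_g g N hN n]
      split_ifs
      · ring
      · ring
    rw [tsum_congr h2, tsum_mul_left] at h1
    rcases mul_eq_zero.mp h1 with h | h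
    · exact absurd h hN0
    · exact h
  have hlim : Filter.Tendsto
      (fun N : ℕ => ∑' n : Fin g → ℤ, (if (∀ i, (N : ℤ) ∣ n i) then c n else 0)) Filter.atTop
      (𝓝 (∑' n : Fin g → ℤ, (if n = 0 then c n else 0))) := by
    refine tendsto_tsum_of_dominated_convergence (bound := fun n => ‖c n‖) hc ?_ ?_
    · intro n
      by_cases hn : n = 0
      · rw [if_pos hn]
        refine tendsto_const_nhds.congr (fun N => ?_)
        rw [if_pos]
        intro i
        rw [hn]
        exact dvd_zero _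
      · rw [if_neg hn]
        obtain ⟨i, hi⟩ := Function.ne_iff.mp hn
        refine tendsto_const_nhds.congr' ?_
        filter_upwards [Filter.eventually_gt_atTop (n i).natAbs] with N hNn
        rw [if_neg]
        intro hall
        have h1 := hall i
        have h2 : (N : ℤ) ≤ |n i| := Int.le_of_dvd (abs_pos.mpr hi) ((dvd_abs _ _).mpr h1)
        have h3 : |n i| = ((n i).natAbs : ℤ) := (Int.natCast_natAbs (n i)).symm
        omega
    · filter_upwards with N n
      split_ifs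
      · exact le_refl _
      · rw [norm_zero]; exact norm_nonneg _
  have hlim0 : Filter.Tendsto
      (fun N : ℕ => ∑' n : Fin g → ℤ, (if (∀ i, (N : ℤ) ∣ n i) then c n else 0)) Filter.atTop
      (𝓝 0) := by
    refine tendsto_const_nhds.congr' ?_
    filter_upwards [Filter.eventually_gt_atTop 0] with N hN
    exact (key N hN).symm
  have h := tendsto_nhds_unique hlim hlim0
  rw [tsum_ite_eq] at h
  rw [hc0] at h
  exact one_ne_zero h

end Pool.Agent.THS.H53
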